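import Mathlib

set_option autoImplicit false

namespace Pool.Agent.Results.MP_39d387_al.Main

open Set Topology Filter Pointwise

def CountablyPracompact (X : Type*) [TopologicalSpace X] : Prop :=
  ∃ D : Set X, Dense D ∧ ∀ B ⊆ D, B.Infinite → ∃ x, ∀ U ∈ 𝓝 x, (U ∩ B).Infinite

def TwoPseudocompact (G : Type*) [Group G] [TopologicalSpace G] : Prop :=
  ∀ U : ℕ → Set G, Antitone U → (∀ n, IsOpen (U n) ∧ (U n).Nonempty) →
    (⋂ n, closure (U n)⁻¹).Nonempty

theorem result (G : Type*) [Group G] [TopologicalSpace G] [ContinuousMul G] [BaireSpace G]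
    (h : CountablyPracompact G) : TwoPseudocompact G := by
  obtain ⟨D, hD, h⟩ := h
  intro U hU h1
  obtain ⟨z, hz⟩ := (dense_iInter_of_isOpen (f := fun n => D * U n) (fun n => (h1 n).1.mul_left)
    fun n => by
      obtain ⟨u, hu⟩ := (h1 n).2
      exact ((Homeomorph.mulRight u).surjective.denseRange.dense_image (continuous_mul_const u)
        hD).mono (image_subset_iff.2 fun d hd => mul_mem_mul hd hu)).nonempty
  choose d hd u hu h2 using mem_iInter.1 hz
  have h3 : ∀ n, z⁻¹ * d n = (u n)⁻¹ := fun n => by rw [← h2 n]; simp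
  obtain ⟨x, hx⟩ : ∃ x, ∀ V ∈ 𝓝 x, (d ⁻¹' V).Infinite := by
    by_cases h4 : (range d).Finite
    · have := h4.to_subtype
      obtain ⟨y, hy⟩ := Finite.exists_infinite_fiber (rangeFactorization d)
      refine ⟨y, fun V hV => (Set.infinite_coe_iff.1 hy).mono fun n hn => ?_⟩
      have : d n = y := congrArg Subtype.val hn
      exact mem_preimage.2 (this ▸ mem_of_mem_nhds hV)
    · obtain ⟨x, hx⟩ := h (range d) (range_subset_iff.2 hd) h4
      exact ⟨x, fun V hV hf => hx V hV (image_preimage_eq_inter_range ▸ hf.image d)⟩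
  refine ⟨z⁻¹ * x, mem_iInter.2 fun n => mem_closure_iff_nhds.2 fun V hV => ?_⟩
  obtain ⟨m, h4, h5⟩ := (hx _ ((continuous_const_mul z⁻¹).continuousAt hV)).exists_gt n
  exact ⟨_, h4, by simpa [h3] using hU h5.le (hu m)⟩

end Pool.Agent.Results.MP_39d387_al.Main
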